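import Pool.Agent.Run7.h230.QF.GR

/-!
# Project QF: pieces FG, DIM, RANK, MOV
-/

set_option autoImplicit false

namespace Pool.Agent.Run7.h847.QF

open Pool.Agent.H97R3.VR (IsMedian IsConvex Btw)
open Pool.Agent.TH97.VR (walls)
open Pool.Agent.Run7.h230.QF
open Pointwise

theorem t_FG : S_FG := by
  classical
  intro V Γ _ m f hf N
  refine ⟨fun a => (Finset.range N).image (fun l : ℕ => HS Γ f a l), ?_, ?_, ?_⟩
  · intro a
    rw [Finset.card_image_of_injective, Finset.card_range]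
    intro l l' hll
    have := (hf.HS_inj hll).2
    exact_mod_cast this
  · intro a
    refine hf.sepLine a _ fun B hB => ?_
    obtain ⟨l, -, rfl⟩ := Finset.mem_image.1 hB
    exact ⟨l, rfl⟩
  · intro a b hab A hA B hB
    obtain ⟨l, -, rfl⟩ := Finset.mem_image.1 hA
    obtain ⟨l', -, rfl⟩ := Finset.mem_image.1 hB
    exact hf.cross hab l l'

theorem degree_bound {V G : Type} [Group G] [MulAction G V] {Γ : SimpleGraph V}
    (hA : Act G Γ) : ∃ d : ℕ, ∀ v : V, (Γ.neighborSet v).ncard < d := by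
  classical
  obtain ⟨K, hK, hcov⟩ := hA.orb
  refine ⟨(hK.toFinset.sup fun v => (Γ.neighborSet v).ncard) + 1, fun v => ?_⟩
  obtain ⟨g, hg⟩ := hcov v
  have h1 : (Γ.neighborSet v).ncard ≤ (Γ.neighborSet (g • v)).ncard := by
    rw [← Set.ncard_smul_set g (Γ.neighborSet v)]
    refine Set.ncard_le_ncard ?_ (hA.loc _)
    rintro _ ⟨u, hu, rfl⟩
    exact hA.adj g v u hu
  have h2 : (Γ.neighborSet (g • v)).ncard ≤ hK.toFinset.sup fun v => (Γ.neighborSet v).ncard :=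
    Finset.le_sup (f := fun v => (Γ.neighborSet v).ncard) (hK.mem_toFinset.2 hg)
  omega

theorem box_degree {V : Type} {Γ : SimpleGraph V} {m : ℕ} (hloc : ∀ v, (Γ.neighborSet v).Finite)
    (h : Box Γ m 1) : ∃ v : V, m ≤ (Γ.neighborSet v).ncard := by
  classical
  obtain ⟨F, hF⟩ := h
  refine ⟨F 0, ?_⟩
  have key : ∀ a b : Fin m, (Γ.dist (F (Pi.single a 1)) (F (Pi.single b 1)) : ℤ) =
      if a = b then 0 else 2 := by
    intro a b
    have hle : ∀ a c : Fin m, (Pi.single a 1 : Fin m → ℕ) c ≤ 1 := by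
      intro a c
      by_cases hc : c = a
      · subst hc; simp
      · simp [Pi.single_eq_of_ne hc]
    rw [hF _ _ (hle a) (hle b)]
    by_cases hab : a = b
    · subst hab
      simp
    · rw [if_neg hab]
      have : ∀ c, |((Pi.single a 1 : Fin m → ℕ) c : ℤ) - ((Pi.single b 1 : Fin m → ℕ) c : ℤ)| =
          (if c = a then 1 else 0) + (if c = b then 1 else 0) := by
        intro c
        by_cases hc : c = a
        · subst hc
          simp [Pi.single_eq_of_ne hab, hab]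
        · by_cases hc' : c = b
          · subst hc'
            simp [Pi.single_eq_of_ne hc, hc]
          · simp [Pi.single_eq_of_ne hc, Pi.single_eq_of_ne hc', hc, hc']
      rw [Finset.sum_congr rfl fun c _ => this c, Finset.sum_add_distrib]
      simp
  have hadj : ∀ a : Fin m, Γ.Adj (F 0) (F (Pi.single a 1)) := by
    intro a
    have hle : ∀ c : Fin m, (Pi.single a 1 : Fin m → ℕ) c ≤ 1 := by
      intro c
      by_cases hc : c = a
      · subst hc; simp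
      · simp [Pi.single_eq_of_ne hc]
    have h1 := hF 0 (Pi.single a 1) (fun c => by simp) hle
    have h2 : ∑ c, |((0 : Fin m → ℕ) c : ℤ) - ((Pi.single a 1 : Fin m → ℕ) c : ℤ)| = 1 := by
      rw [Finset.sum_eq_single a]
      · simp
      · intro b _ hb
        simp [Pi.single_eq_of_ne hb]
      · intro h; exact absurd (Finset.mem_univ a) h
    rw [h2] at h1
    exact SimpleGraph.dist_eq_one_iff_adj.1 (by exact_mod_cast h1)
  have hinj : Function.Injective fun a : Fin m => F (Pi.single a 1) := by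
    intro a b hab
    by_contra hne
    have h1 := key a b
    have hab' : F (Pi.single a 1) = F (Pi.single b 1) := hab
    rw [hab', SimpleGraph.dist_self, if_neg hne] at h1
    norm_num at h1
  calc m = (Set.range fun a : Fin m => F (Pi.single a 1)).ncard := by
        rw [← Set.image_univ, Set.ncard_image_of_injective _ hinj, Set.ncard_univ, Nat.card_fin]
    _ ≤ _ := Set.ncard_le_ncard (by rintro _ ⟨a, rfl⟩; exact hadj a) (hloc _)

theorem t_DIM : S_BASE → S_PROD → S_DIM := by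
  intro hB hP V G _ _ Γ hA
  obtain ⟨d, hd⟩ := degree_bound hA
  refine ⟨d, fun m hm hG => ?_⟩
  obtain ⟨x, y, h1, h2⟩ := hB V Γ hA.med m 1 hG
  obtain ⟨v, hv⟩ := box_degree hA.loc (hP V Γ hA.med m 1 x y h1 h2)
  have := hd v
  omega

theorem Grid.mono {V : Type} {Γ : SimpleGraph V} {n N M : ℕ} (h : N ≤ M) (hG : Grid Γ n M) :
    Grid Γ n N := by
  obtain ⟨𝒜, h1, h2, h3⟩ := hG
  exact ⟨𝒜, fun a => h.trans (h1 a), h2, h3⟩

theorem t_RANK : S_HYP → S_DIM → S_BASE → S_PROD → S_LIM → S_FG → S_RANK := by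
  classical
  intro hH hD hB hP hL hF V G _ _ Γ hA hh
  obtain ⟨d, hd⟩ := hD V G Γ hA
  have h2 : ∀ N, Grid Γ 2 N := hH V Γ hA.med hh
  have h2d : 2 ≤ d := by
    by_contra hcon
    exact hd 2 (by omega) (h2 1)
  set k := Nat.findGreatest (fun k => ∀ N, Grid Γ k N) d with hk
  have hk2 : 2 ≤ k := Nat.le_findGreatest h2d h2
  have hkG : ∀ N, Grid Γ k N :=
    Nat.findGreatest_spec (P := fun k => ∀ N, Grid Γ k N) h2d h2
  have hk1 : ∃ N, ¬ Grid Γ (k + 1) N := by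
    by_contra hcon
    push Not at hcon
    have h3 : k + 1 ≤ d := by
      by_contra h4
      exact hd (k + 1) (by omega) (hcon 1)
    have := Nat.le_findGreatest (P := fun k => ∀ N, Grid Γ k N) h3 hcon
    omega
  refine ⟨k, hk2, ?_, ?_, hk1⟩
  · refine hL V G Γ hA k fun N => ?_
    obtain ⟨x, y, h3, h4⟩ := hB V Γ hA.med k N (hkG N)
    exact hP V Γ hA.med k N x y h3 h4
  · rintro ⟨f, hf⟩
    obtain ⟨N, hN⟩ := hk1
    exact hN (hF V Γ hA.med (k + 1) f hf N)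

theorem t_MOV : S_PIG → S_MOV := by
  classical
  intro hPI V G _ _ Γ hA k N hG f hf i₂ R
  obtain ⟨I, hI, hag⟩ := hPI V G Γ hA k f hf R (fun n => Pi.single i₂ (n : ℤ))
  suffices h : ∃ n₁ ∈ I, ∃ n₂ ∈ I, n₁ < n₂ ∧ HS Γ f i₂ (n₂ : ℤ) ⊂ HS Γ f i₂ (n₁ : ℤ) by
    obtain ⟨n₁, h1, n₂, h2, h3, h4⟩ := h
    obtain ⟨q, hq⟩ := hag n₁ h1 n₂ h2
    exact ⟨n₁, n₂, q, h3, h4, hq⟩
  by_contra hcon
  push Not at hcon
  have hcr : ∀ n₁ ∈ I, ∀ n₂ ∈ I, n₁ < n₂ → Cross (HS Γ f i₂ (n₁ : ℤ)) (HS Γ f i₂ (n₂ : ℤ)) := by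
    intro n₁ h1 n₂ h2 h12
    have hlt : (n₁ : ℤ) < n₂ := by exact_mod_cast h12
    have hm : ∀ t j : ℤ, f (Pi.single i₂ t) ∈ HS Γ f i₂ j ↔ j < t := fun t j => by
      rw [hf.side]; simp
    have hA' : (HS Γ f i₂ (n₁ : ℤ) ∩ (HS Γ f i₂ (n₂ : ℤ))ᶜ).Nonempty :=
      ⟨f (Pi.single i₂ ((n₁ : ℤ) + 1)), (hm _ _).2 (by omega), fun h => by
        have := (hm _ _).1 h; omega⟩
    refine ⟨⟨f (Pi.single i₂ ((n₂ : ℤ) + 1)), (hm _ _).2 (by omega), (hm _ _).2 (by omega)⟩,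
      hA', ?_, ⟨f (Pi.single i₂ (n₁ : ℤ)), fun h => ?_, fun h => ?_⟩⟩
    · by_contra hemp
      rw [Set.not_nonempty_iff_eq_empty] at hemp
      refine hcon n₁ h1 n₂ h2 h12 ⟨fun u hu => ?_, fun hsub => ?_⟩
      · by_contra hu'
        have : u ∈ (HS Γ f i₂ (n₁ : ℤ))ᶜ ∩ HS Γ f i₂ (n₂ : ℤ) := ⟨hu', hu⟩
        rw [hemp] at this
        exact this
      · obtain ⟨u, hu1, hu2⟩ := hA'
        exact hu2 (hsub hu1)
    · have := (hm _ _).1 h; omega
    · have := (hm _ _).1 h; omega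
  have hcr' : ∀ n₁ ∈ I, ∀ n₂ ∈ I, n₁ ≠ n₂ → Cross (HS Γ f i₂ (n₁ : ℤ)) (HS Γ f i₂ (n₂ : ℤ)) := by
    intro n₁ h1 n₂ h2 hne
    rcases lt_or_gt_of_ne hne with h | h
    · exact hcr n₁ h1 n₂ h2 h
    · exact (hcr n₂ h2 n₁ h1 h).symm
  obtain ⟨T, hTI, hT⟩ := hI.exists_subset_card_eq (N + N)
  obtain ⟨T₁, hT₁, hT₁c⟩ := Finset.exists_subset_card_eq (show N ≤ T.card by omega)
  have hT₂c : (T \ T₁).card = N := by
    rw [Finset.card_sdiff_of_subset hT₁]; omega
  have hinj : Function.Injective fun n : ℕ => HS Γ f i₂ (n : ℤ) := by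
    intro l l' hll
    have := (hf.HS_inj hll).2
    exact_mod_cast this
  rcases t_GR V Γ hA.med k N hG f hf i₂ (T₁.image fun n : ℕ => HS Γ f i₂ (n : ℤ))
    ((T \ T₁).image fun n : ℕ => HS Γ f i₂ (n : ℤ))
    (hf.sepLine i₂ _ fun B hB => by
      obtain ⟨l, -, rfl⟩ := Finset.mem_image.1 hB
      exact ⟨l, rfl⟩)
    (fun B hB => by
      obtain ⟨l, -, rfl⟩ := Finset.mem_image.1 hB
      exact ⟨l, rfl⟩)
    (fun A hA' B hB => by
      obtain ⟨l, hl, rfl⟩ := Finset.mem_image.1 hA'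
      obtain ⟨l', hl', rfl⟩ := Finset.mem_image.1 hB
      refine hcr' l (hTI (hT₁ hl)) l' (hTI (Finset.mem_sdiff.1 hl').1) fun h => ?_
      exact (Finset.mem_sdiff.1 hl').2 (h ▸ hl))
    (fun A hA' i' hi' l _ _ => by
      obtain ⟨l', -, rfl⟩ := Finset.mem_image.1 hA'
      exact hf.cross (Ne.symm hi') _ _) with h | h
  · rw [Finset.card_image_of_injective _ hinj] at h
    omega
  · rw [Finset.card_image_of_injective _ hinj] at h
    omega

end Pool.Agent.Run7.h847.QF
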