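import Pool.Agent.Run7.h230.QF.Stm2

/-!
# Project QF, phase 2: pieces GRP, ZZ (helper847)
-/

set_option autoImplicit false

namespace Pool.Agent.Run7.h847.QF

open Pool.Agent.H97R3.VR (IsMedian IsConvex Btw)
open Pool.Agent.TH97.VR (walls)
open Pool.Agent.Run7.h230.QF
open Pointwise

theorem t_GRP : S_GRP := by
  intro G _ F hF hmul t g hconj hcom
  -- `t⁻¹ ^ b * u * t ^ b ∈ F`
  have hconjb : ∀ (b : ℕ), ∀ u ∈ F, (t ^ b)⁻¹ * u * t ^ b ∈ F := by
    intro b
    induction b with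
    | zero => intro u hu; simpa using hu
    | succ b ih =>
      intro u hu
      have h1 := hconj _ (ih u hu)
      have h2 : (t ^ (b + 1))⁻¹ * u * t ^ (b + 1) = t⁻¹ * ((t ^ b)⁻¹ * u * t ^ b) * t := by
        rw [pow_succ]; group
      rw [h2]
      exact h1
  have key : ∀ b : ℕ, g⁻¹ * (t ^ (b + 1))⁻¹ * g * t ^ (b + 1) ∈ F := by
    intro b
    induction b with
    | zero =>
      have : g⁻¹ * (t ^ (0 + 1))⁻¹ * g * t ^ (0 + 1) = (t * g)⁻¹ * (g * t) := by
        rw [zero_add, pow_one]; group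
      rw [this]
      exact hcom
    | succ b ih =>
      have h1 := hmul _ hcom _ (hconj _ ih)
      have h2 : g⁻¹ * (t ^ (b + 1 + 1))⁻¹ * g * t ^ (b + 1 + 1) =
          (t * g)⁻¹ * (g * t) * (t⁻¹ * (g⁻¹ * (t ^ (b + 1))⁻¹ * g * t ^ (b + 1)) * t) := by
        rw [pow_succ t (b + 1)]; group
      rw [h2]
      exact h1
  -- pigeonhole
  obtain ⟨b, b', hne, heq⟩ : ∃ b b' : ℕ, b ≠ b' ∧
      g⁻¹ * (t ^ (b + 1))⁻¹ * g * t ^ (b + 1) = g⁻¹ * (t ^ (b' + 1))⁻¹ * g * t ^ (b' + 1) := by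
    obtain ⟨b, -, b', -, h1, h2⟩ := Set.infinite_univ.exists_ne_map_eq_of_mapsTo
      (f := fun b : ℕ => g⁻¹ * (t ^ (b + 1))⁻¹ * g * t ^ (b + 1)) (fun b _ => key b) hF
    exact ⟨b, b', h1, h2⟩
  have main : ∀ b c : ℕ, g⁻¹ * (t ^ (b + 1))⁻¹ * g * t ^ (b + 1) =
      g⁻¹ * (t ^ (b + c + 1))⁻¹ * g * t ^ (b + c + 1) → t ^ c * g = g * t ^ c := by
    intro b c h
    have e1 : t ^ (b + c + 1) = t ^ c * t ^ (b + 1) := by rw [← pow_add]; congr 1; omega
    have e2 : t ^ c * t ^ (b + 1) = t ^ (b + 1) * t ^ c := by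
      rw [← pow_add, ← pow_add, add_comm]
    have h1 : (t ^ (b + 1))⁻¹ * g * t ^ (b + 1) =
        (t ^ (b + c + 1))⁻¹ * g * t ^ (b + c + 1) := by
      have := congrArg (fun z => g * z) h
      simpa only [mul_assoc, mul_inv_cancel_left] using this
    have h2 : g = (t ^ c)⁻¹ * g * t ^ c := by
      have h3 := congrArg (fun z => t ^ (b + 1) * z * (t ^ (b + 1))⁻¹) h1
      simp only [e1] at h3
      have e3 : t ^ (b + 1) * ((t ^ (b + 1))⁻¹ * g * t ^ (b + 1)) * (t ^ (b + 1))⁻¹ = g := by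
        group
      have e4 : t ^ (b + 1) * ((t ^ c * t ^ (b + 1))⁻¹ * g * (t ^ c * t ^ (b + 1))) *
          (t ^ (b + 1))⁻¹ = (t ^ c)⁻¹ * g * t ^ c := by
        rw [mul_inv_rev]
        have : t ^ (b + 1) * ((t ^ (b + 1))⁻¹ * (t ^ c)⁻¹ * g * (t ^ c * t ^ (b + 1))) *
            (t ^ (b + 1))⁻¹ = (t ^ (b + 1) * (t ^ (b + 1))⁻¹) * ((t ^ c)⁻¹ * g * t ^ c) *
            (t ^ (b + 1) * (t ^ (b + 1))⁻¹) := by
          simp only [mul_assoc]
        rw [this, mul_inv_cancel, one_mul, mul_one]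
      rw [e3, e4] at h3
      exact h3
    have h4 := congrArg (fun z => t ^ c * z) h2
    simp only [mul_assoc, mul_inv_cancel_left] at h4
    exact h4
  rcases lt_or_gt_of_ne hne with h | h
  · obtain ⟨c, hc⟩ : ∃ c, b' = b + c := ⟨b' - b, by omega⟩
    refine ⟨c, by omega, main b c ?_⟩
    rw [← hc]; exact heq
  · obtain ⟨c, hc⟩ : ∃ c, b = b' + c := ⟨b - b', by omega⟩
    refine ⟨c, by omega, main b' c ?_⟩
    rw [← hc]; exact heq.symm

theorem smul_ssub {V G : Type} [Group G] [MulAction G V] {A B : Set V} (g : G) (h : A ⊂ B) :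
    g • A ⊂ g • B := by
  rw [Set.ssubset_iff_subset_ne] at h ⊢
  refine ⟨Set.smul_set_mono h.1, fun he => h.2 ?_⟩
  have := congrArg (fun X => g⁻¹ • X) he
  simpa using this

/-- a strictly decreasing action has no periods -/
theorem pow_ssub {V G : Type} [Group G] [MulAction G V] {A : Set V} {b : G} (h : b • A ⊂ A)
    (n : ℕ) (hn : 0 < n) : b ^ n • A ⊂ A := by
  induction n with
  | zero => omega
  | succ n ih =>
    rcases Nat.eq_zero_or_pos n with rfl | hn'
    · simpa using h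
    · have h1 := smul_ssub b (ih hn')
      rw [smul_smul, ← pow_succ'] at h1
      exact h1.trans h

theorem zpow_eq_zero {V G : Type} [Group G] [MulAction G V] {A : Set V} {b : G} (h : b • A ⊂ A)
    (y : ℤ) (hy : b ^ y • A = A) : y = 0 := by
  by_contra hne
  have key : ∀ n : ℕ, 0 < n → b ^ n • A ≠ A := fun n hn he =>
    (pow_ssub h n hn).ne he
  rcases Int.natAbs_eq y with h1 | h1
  · rw [h1, zpow_natCast] at hy
    exact key _ (Int.natAbs_pos.2 hne) hy
  · rw [h1, zpow_neg, zpow_natCast, inv_smul_eq_iff] at hy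
    exact key _ (Int.natAbs_pos.2 hne) hy.symm

theorem t_ZZ : S_ZZ := by
  intro V G _ _ A B a b hab ha hb hB hno
  apply hno
  have hc : Commute a b := hab
  let φ : Multiplicative (ℤ × ℤ) →* G :=
    { toFun := fun x => a ^ (Multiplicative.toAdd x).1 * b ^ (Multiplicative.toAdd x).2
      map_one' := by simp
      map_mul' := fun x y => by
        show a ^ ((Multiplicative.toAdd x).1 + (Multiplicative.toAdd y).1) *
          b ^ ((Multiplicative.toAdd x).2 + (Multiplicative.toAdd y).2) = _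
        rw [zpow_add, zpow_add]
        have h1 : Commute (a ^ (Multiplicative.toAdd y).1) (b ^ (Multiplicative.toAdd x).2) :=
          (hc.zpow_left _).zpow_right _
        rw [mul_assoc, ← mul_assoc (a ^ (Multiplicative.toAdd y).1), h1.eq]
        simp only [mul_assoc] }
  refine ⟨φ, ?_⟩
  rw [injective_iff_map_eq_one]
  intro x hx
  have hx' : a ^ (Multiplicative.toAdd x).1 * b ^ (Multiplicative.toAdd x).2 = 1 := hx
  set p := (Multiplicative.toAdd x).1 with hp
  set q := (Multiplicative.toAdd x).2 with hq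
  have haz : ∀ n : ℤ, a ^ n • A = A := by
    intro n
    have h1 : a ∈ MulAction.stabilizer G A := ha
    exact (MulAction.stabilizer G A).zpow_mem h1 n
  have h1 : b ^ q = (a ^ p)⁻¹ := by
    rw [eq_inv_iff_mul_eq_one, ← hx']
    exact (((hc.zpow_left p).zpow_right q).eq).symm
  have hq0 : q = 0 := by
    refine zpow_eq_zero hb q ?_
    rw [h1, ← zpow_neg]
    exact haz _
  have hp0 : p = 0 := by
    rw [hq0, zpow_zero, mul_one] at hx'
    have h2 : a⁻¹ • B ⊂ B := by
      have := smul_ssub a⁻¹ hB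
      rwa [inv_smul_smul] at this
    have h3 : a⁻¹ ^ (-p) • B = B := by
      rw [inv_zpow, zpow_neg, inv_inv, hx', one_smul]
    have := zpow_eq_zero h2 (-p) h3
    omega
  have : Multiplicative.toAdd x = (0, 0) := Prod.ext hp0 hq0
  exact this

end Pool.Agent.Run7.h847.QF
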